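import Pool.Agent.TH113.MN.Key0
import Pool.Agent.TH509.MN.Common
import Pool.Agent.TH695.MN.Tube8
import Pool.Agent.TH470.MN.GdPow
import Pool.Agent.TH713.MN.NodLead

/-! The key lemma: emptiness at several nodes (job MN-12 of helper745, written by helper113). -/

set_option autoImplicit false

namespace Pool.Agent.TH113.MN

open Pool.Agent.TH745.MN Pool.Agent.TH603.EL Pool.Agent.TH603.EL.Scal2 Pool.Agent.TH793.NG
  Pool.Agent.TH176.Nag Pool.Agent.TH603.Sur

theorem Emp_key {r M D : ℕ} (hM : r + 1 ≤ M) {κ : Fin r → Type} [∀ i, Finite (κ i)]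
    {v : (Σ i, κ i) → ℕ} {a b : Fin r → ℝ} (ha : ∀ i, 0 < a i) (hb : ∀ i, 0 < b i) {ω : ℕ → ℝ}
    (hω : Thr a b ω) (h : ∀ i, Emp (fun j => v ⟨i, j⟩) (SS M D (a i) (b i) ω)) :
    Emp v (WM M D) :=
  Emp_key_of Pool.Agent.TH509.MN.common_points (fun h => Pool.Agent.TH695.MN.exists_tube h)
    Pool.Agent.TH470.MN.Gd_pf Pool.Agent.TH713.MN.nod_lead hM ha hb hω h

end Pool.Agent.TH113.MN
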