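import Pool.Agent.TH745.MN.Tb

/-! The key lemma: emptiness at several nodes (job MN-12 of helper745, written by helper113).
The assembly from the statements of MN-5, MN-8, MN-10, MN-11. -/

set_option autoImplicit false

namespace Pool.Agent.TH113.MN

open Pool.Agent.TH745.MN Pool.Agent.TH603.EL Pool.Agent.TH603.EL.Scal2 Pool.Agent.TH793.NG
  Pool.Agent.TH176.Nag Pool.Agent.TH603.Sur

/-- the set of the exponents at a node is finite -/
theorem SS_finite {M D : ℕ} (hM : 1 ≤ M) {a b : ℝ} (ha : 0 < a) (hb : 0 < b) (ω : ℕ → ℝ) :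
    (SS M D a b ω).Finite := by
  obtain ⟨Ω, hΩ⟩ : ∃ Ω : ℝ, ∀ W ≤ D, ω W ≤ Ω := by
    refine ⟨∑ W ∈ Finset.range (D + 1), |ω W|, fun W hW => ?_⟩
    refine (le_abs_self _).trans ?_
    exact Finset.single_le_sum (f := fun W => |ω W|) (fun i _ => abs_nonneg _)
      (Finset.mem_range.2 (by omega))
  refine Set.Finite.subset ((Set.finite_Icc (-⌈Ω / b⌉) ⌈Ω / a⌉).prod
    (Set.finite_Icc (0 : ℤ) (D : ℤ))) ?_
  rintro m ⟨h1, h2, h3, h4⟩
  have h5 := hΩ (D - 2 * M * m.2.toNat) (Nat.sub_le _ _)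
  refine ⟨⟨?_, ?_⟩, h1, ?_⟩
  · have h6 : -(m.1 : ℝ) ≤ Ω / b := by
      rw [le_div_iff₀ hb]
      linarith
    have h7 : (-(m.1 : ℤ) : ℝ) ≤ ((⌈Ω / b⌉ : ℤ) : ℝ) := h6.trans (Int.le_ceil _)
    have h8 : -m.1 ≤ ⌈Ω / b⌉ := by exact_mod_cast h7
    show -⌈Ω / b⌉ ≤ m.1
    linarith
  · have h6 : (m.1 : ℝ) ≤ Ω / a := by
      rw [le_div_iff₀ ha]
      linarith
    have h7 : ((m.1 : ℤ) : ℝ) ≤ ((⌈Ω / a⌉ : ℤ) : ℝ) := h6.trans (Int.le_ceil _)
    exact_mod_cast h7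
  · have hM' : (1 : ℤ) ≤ M := by exact_mod_cast hM
    show m.2 ≤ (D : ℤ)
    nlinarith

theorem natDegree_RR_le {F : Type} [Field F] {r : ℕ} (ell : Fin r → ℝ) :
    (RR F ell).natDegree ≤ 2 * r + 1 := by
  unfold RR
  refine Polynomial.natDegree_mul_le.trans ?_
  have h1 : (1 + Polynomial.X : Polynomial (HK F)).natDegree ≤ 1 := by
    refine (Polynomial.natDegree_add_le _ _).trans ?_
    rw [Polynomial.natDegree_one]
    exact max_le (by norm_num) Polynomial.natDegree_X_le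
  have h2 : (∏ i : Fin r, ((Polynomial.X - Polynomial.C (HahnSeries.C (cc F i))) ^ 2 -
      Polynomial.C (4 * HahnSeries.single (ell i) (1 : F)) : Polynomial (HK F))).natDegree ≤
      2 * r := by
    refine (Polynomial.natDegree_prod_le _ _).trans ?_
    refine (Finset.sum_le_card_nsmul _ _ 2 fun i _ => ?_).trans ?_
    · refine (Polynomial.natDegree_sub_le _ _).trans (max_le ?_ ?_)
      · refine Polynomial.natDegree_pow_le.trans ?_
        have : (Polynomial.X - Polynomial.C (HahnSeries.C (cc F i)) :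
            Polynomial (HK F)).natDegree ≤ 1 := Polynomial.natDegree_X_sub_C_le _
        omega
      · rw [Polynomial.natDegree_C]
        norm_num
    · rw [Finset.card_univ, Fintype.card_fin, smul_eq_mul]
      omega
  omega

theorem natDegree_Rb {F : Type} [Field F] (r : ℕ) : (Rb F r).natDegree = 2 * r + 1 := by
  unfold Rb
  have h1 : (1 + Polynomial.X : Polynomial F) = Polynomial.X + Polynomial.C 1 := by
    rw [map_one, add_comm]
  have h2 : (∏ i : Fin r, (Polynomial.X - Polynomial.C (cc F i)) ^ 2 : Polynomial F).Monic :=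
    Polynomial.monic_prod_of_monic _ _ fun i _ => (Polynomial.monic_X_sub_C _).pow 2
  rw [h1, Polynomial.Monic.natDegree_mul (Polynomial.monic_X_add_C 1) h2,
    Polynomial.natDegree_X_add_C,
    Polynomial.natDegree_prod_of_monic _ _ fun i _ => (Polynomial.monic_X_sub_C _).pow 2]
  simp only [Polynomial.natDegree_pow, Polynomial.natDegree_X_sub_C, Finset.sum_const,
    Finset.card_univ, Fintype.card_fin, smul_eq_mul]
  omega

theorem cc_injective {F : Type} [Field F] [CharZero F] {r : ℕ} :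
    Function.Injective (cc F : Fin r → F) := by
  intro i j h
  unfold cc at h
  have h1 : (((i : ℕ) : F) + 2) ^ 2 = (((j : ℕ) : F) + 2) ^ 2 := sub_left_injective h
  have h2 : ((i : ℕ) + 2) ^ 2 = ((j : ℕ) + 2) ^ 2 := by exact_mod_cast h1
  have h3 := Nat.pow_left_injective (n := 2) (by norm_num) h2
  have h4 : (i : ℕ) + 2 = (j : ℕ) + 2 := h3
  exact Fin.ext (by omega)

/-- the statement of MN-5 -/
def H5 : Prop := ∀ {β : Type} [Fintype β] {κ : β → Type} [∀ i, Finite (κ i)]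
    {v : ∀ i, κ i → ℕ} {S : β → Set (ℤ × ℤ)}, (∀ i, (S i).Finite) → (∀ i, Emp (v i) (S i)) →
    ∃ x y : ∀ i, κ i → ℚ, (∀ i j, x i j ≠ 0) ∧ (∀ i j, y i j ≠ 0) ∧
      ∀ i, ∀ f : (ℤ × ℤ) →₀ ℚ, (↑f.support : Set (ℤ × ℤ)) ⊆ S i →
        (∀ j, LM f (x i j) (y i j) (v i j)) → f = 0

/-- the statement of MN-8 -/
def H8 : Prop := ∀ {F : Type} [Field F] [CharZero F] {r : ℕ} {ell : Fin r → ℝ},
    (∀ i, 0 < ell i) → ∀ {κ : ℝ} (i : Fin r) {a b : ℝ}, 0 < a → 0 < b →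
    a + b = ell i → 2 * ell i < κ →
    ∃ xx yy U : HR F, Tb (RR F ell) (Rb F r) a b (κ - ell i) κ (cc F i) xx yy U

/-- the statement of MN-10 -/
def H10 : Prop := ∀ {F : Type} [Field F] {R : Polynomial (HK F)} {M D : ℕ},
    R.natDegree ≤ 2 * M → ∀ {f : (ℤ × ℤ) →₀ HK F},
    (∀ m ∈ f.support, 0 ≤ m.1 ∧ 0 ≤ m.2 ∧ m.1 + M * m.2 ≤ D) → Gd R M D (pf f)

/-- the statement of MN-11 -/
def H11 : Prop := ∀ {F : Type} [Field F] [CharZero F] {β : Type} [Fintype β] [DecidableEq β]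
    {R : Polynomial (HK F)} {Rb : Polynomial F}, Odd Rb.natDegree → ∀ {M : ℕ},
    Rb.natDegree + 1 ≤ 2 * M → ∀ {κ : ℝ} {a b s : β → ℝ}
    {c : β → F}, Function.Injective c → ∀ {xx yy U : β → HR F},
    (∀ i, Tb R Rb (a i) (b i) (s i) κ (c i) (xx i) (yy i) (U i)) → ∀ {ω : ℕ → ℝ},
    Thr a b ω → ∀ {D : ℕ}, (∀ i, ∀ W ≤ D, ω W ≤ s i) → ∀ {p : PXY F}, p ≠ 0 →
    Gd R M D p →
    ∃ n : ℝ, (∃ i k j, cf (EV (xx i) (yy i) p) n k j ≠ 0) ∧
      ∀ i k j, cf (EV (xx i) (yy i) p) n k j ≠ 0 → (k, j) ∈ SS M D (a i) (b i) ω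

/-- the key lemma from its ingredients -/
theorem Emp_key_of (h5 : H5) (h8 : H8) (h10 : H10) (h11 : H11)
    {r M D : ℕ} (hM : r + 1 ≤ M) {κ : Fin r → Type} [∀ i, Finite (κ i)]
    {v : (Σ i, κ i) → ℕ} {a b : Fin r → ℝ} (ha : ∀ i, 0 < a i) (hb : ∀ i, 0 < b i) {ω : ℕ → ℝ}
    (hω : Thr a b ω) (h : ∀ i, Emp (fun j => v ⟨i, j⟩) (SS M D (a i) (b i) ω)) :
    Emp v (WM M D) := by
  classical
  obtain ⟨x, y, hx, hy, hE⟩ := h5 (fun i => SS_finite (D := D) (by omega) (ha i) (hb i) ω) h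
  obtain ⟨ell, hell⟩ : ∃ ell : Fin r → ℝ, ∀ i, a i + b i = ell i := ⟨_, fun i => rfl⟩
  have hell0 : ∀ i, 0 < ell i := fun i => by
    rw [← hell i]
    exact add_pos (ha i) (hb i)
  obtain ⟨k, hk⟩ : ∃ k : ℝ, k = 2 * ∑ i, ell i + ∑ W ∈ Finset.range (D + 1), ω W + 1 := ⟨_, rfl⟩
  have hω0 : ∀ W, 0 < ω W := fun W => (hω W).1
  have hωs : ∀ W ≤ D, ω W ≤ ∑ W ∈ Finset.range (D + 1), ω W := fun W hW =>
    Finset.single_le_sum (fun i _ => (hω0 i).le) (Finset.mem_range.2 (by omega))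
  have hωs0 : 0 < ∑ W ∈ Finset.range (D + 1), ω W := (hω0 0).trans_le (hωs 0 (by omega))
  have hells : ∀ i, ell i ≤ ∑ i, ell i := fun i =>
    Finset.single_le_sum (fun j _ => (hell0 j).le) (Finset.mem_univ i)
  have hk2 : ∀ i, 2 * ell i < k := fun i => by
    have := hells i
    rw [hk]
    linarith
  have hs : ∀ i, ∀ W ≤ D, ω W ≤ k - ell i := fun i W hW => by
    have h1 := hells i
    have h2 := hωs W hW
    have h3 := hell0 i
    rw [hk]
    linarith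
  choose xx yy U hT using fun i => h8 (F := ℚ) hell0 (κ := k) i (ha i) (hb i) (hell i) (hk2 i)
  have hchar : CharZero (HK ℚ) :=
    charZero_of_injective_ringHom (f := (HahnSeries.C : ℚ →+* HK ℚ)) HahnSeries.C_injective
  have hU : ∀ (q : Σ i, κ i) (l : ZMod 3),
      evp (hx q.1 q.2) (hy q.1 q.2) (UU (xx q.1) (yy q.1) l) ≠ 0 := by
    intro q l
    unfold UU
    split_ifs
    · rw [map_one]; exact one_ne_zero
    · exact (hT q.1).nx _ _ _ _
    · exact (hT q.1).ny _ _ _ _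
  refine ⟨HK ℚ, inferInstance, hchar,
    fun q => evp (hx q.1 q.2) (hy q.1 q.2) (UU (xx q.1) (yy q.1) 1) /
      evp (hx q.1 q.2) (hy q.1 q.2) (UU (xx q.1) (yy q.1) 0),
    fun q => evp (hx q.1 q.2) (hy q.1 q.2) (UU (xx q.1) (yy q.1) 2) /
      evp (hx q.1 q.2) (hy q.1 q.2) (UU (xx q.1) (yy q.1) 0),
    fun q => div_ne_zero (hU q 1) (hU q 0), fun q => div_ne_zero (hU q 2) (hU q 0), ?_⟩
  intro f hf hLM
  by_contra hne0
  have hf0 : ∀ m ∈ f.support, 0 ≤ m.1 ∧ 0 ≤ m.2 ∧ m.1 + M * m.2 ≤ (D : ℤ) := fun m hm => hf hm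
  have hf1 : ∀ m ∈ f.support, 0 ≤ m.1 ∧ 0 ≤ m.2 ∧ m.1 + m.2 ≤ (D : ℤ) := by
    intro m hm
    obtain ⟨h1, h2, h3⟩ := hf0 m hm
    refine ⟨h1, h2, ?_⟩
    have h4 : (1 : ℤ) ≤ M := by exact_mod_cast (by omega : 1 ≤ M)
    nlinarith
  have hodd : Odd (Rb ℚ r).natDegree := by
    rw [natDegree_Rb]
    exact ⟨r, rfl⟩
  obtain ⟨n, ⟨i0, k0, j0, ha0⟩, hb0⟩ := h11 hodd (M := M) (by rw [natDegree_Rb]; omega)
    cc_injective hT hω hs (pf_ne (fun m hm => ⟨(hf0 m hm).1, (hf0 m hm).2.1⟩) hne0)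
    (h10 ((natDegree_RR_le ell).trans (by omega)) hf0)
  rw [← ev_hom _ _ D f] at ha0
  have h2 : ((ev (UU (xx i0) (yy i0)) (hom D f)).coeff n).coeff = 0 := by
    apply hE i0
    · intro m hm
      have hm' : cf (EV (xx i0) (yy i0) (pf f)) n m.1 m.2 ≠ 0 := by
        rw [← ev_hom _ _ D f]
        exact Finsupp.mem_support_iff.1 hm
      exact hb0 i0 m.1 m.2 hm'
    · intro j
      exact LM_transfer (hx i0 j) (hy i0 j) (hU ⟨i0, j⟩) hf1 (hLM ⟨i0, j⟩) n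
  apply ha0
  unfold cf
  rw [h2]
  rfl

end Pool.Agent.TH113.MN
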